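import Pool.Agent.Helper12.RQ.Polar

/-!
MP_a2585e_an, packet E3U: the estimate (E3) with the constant `C3`.
-/

set_option autoImplicit false

open MeasureTheory Set Filter Topology Metric

open scoped ENNReal NNReal ContDiff

namespace Pool.Agent.Helper62.RQ

open Pool.Agent.Helper12.RQ

/-- the profile -/
noncomputable def psi (r₁ β s : ℝ) : ℝ := (max 1 (s / r₁)) ^ (-β)

lemma psi_meas (r₁ β : ℝ) : Measurable (psi r₁ β) := by
  unfold psi
  fun_prop

lemma psi_pos (r₁ β s : ℝ) : 0 < psi r₁ β s :=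
  Real.rpow_pos_of_pos (lt_of_lt_of_le one_pos (le_max_left _ _)) _

lemma psi_le_one {β : ℝ} (hβ : 0 ≤ β) (r₁ s : ℝ) : psi r₁ β s ≤ 1 :=
  Real.rpow_le_one_of_one_le_of_nonpos (le_max_left _ _) (by linarith)

lemma psi_lt_iff {r₁ β t s : ℝ} (hr : 0 < r₁) (hβ : 0 < β) (ht : 0 < t) (ht1 : t < 1) :
    t < psi r₁ β s ↔ s < (t⁻¹) ^ β⁻¹ * r₁ := by
  have hM : 0 < max 1 (s / r₁) := lt_of_lt_of_le one_pos (le_max_left _ _)
  have h1 : t < psi r₁ β s ↔ (max 1 (s / r₁)) ^ β < t⁻¹ := by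
    unfold psi
    rw [Real.rpow_neg hM.le]
    exact lt_inv_comm₀ ht (Real.rpow_pos_of_pos hM _)
  have hu : 1 < (t⁻¹) ^ β⁻¹ :=
    Real.one_lt_rpow ((one_lt_inv₀ ht).2 ht1) (inv_pos.2 hβ)
  rw [h1, ← Real.lt_rpow_inv_iff_of_pos hM.le (inv_pos.2 ht).le hβ, max_lt_iff, div_lt_iff₀ hr]
  exact ⟨fun h => h.2, fun h => ⟨hu, h⟩⟩

/-- comparison with a constant function -/
lemma cmp (n : ℕ) (x₀ : E n) (Q : E n → ℝ≥0∞) (hQ : Measurable Q) (c : ℝ≥0∞) (hc : c ≠ ⊤)
    (R : ℝ) (hR : 0 < R)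
    (hball : ∀ s, 0 < s → s ≤ R → ∫⁻ x in ball x₀ s, Q x ≤ c * volume (ball x₀ s))
    (r₁ β : ℝ) (hr : 0 < r₁) (hβ : 0 < β) :
    ∫⁻ x in ball x₀ R, Q x * ENNReal.ofReal (psi r₁ β (dist x x₀)) ≤
      c * ∫⁻ x in ball x₀ R, ENNReal.ofReal (psi r₁ β (dist x x₀)) := by
  have hfm : Measurable fun x : E n => psi r₁ β (dist x x₀) :=
    (psi_meas r₁ β).comp (by fun_prop)
  have h1 : ∫⁻ x in ball x₀ R, Q x * ENNReal.ofReal (psi r₁ β (dist x x₀)) =
      ∫⁻ x, ENNReal.ofReal (psi r₁ β (dist x x₀))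
        ∂((volume.restrict (ball x₀ R)).withDensity Q) := by
    rw [lintegral_withDensity_eq_lintegral_mul _ hQ (by fun_prop)]
    rfl
  rw [h1, lintegral_eq_lintegral_meas_lt _ (ae_of_all _ fun x => (psi_pos _ _ _).le)
    hfm.aemeasurable, lintegral_eq_lintegral_meas_lt _ (ae_of_all _ fun x => (psi_pos _ _ _).le)
    hfm.aemeasurable, ← lintegral_const_mul' _ _ hc]
  refine setLIntegral_mono' measurableSet_Ioi fun t ht => ?_
  have ht0 : 0 < t := ht
  by_cases ht1 : t < 1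
  · have hset : {x : E n | t < psi r₁ β (dist x x₀)} = ball x₀ ((t⁻¹) ^ β⁻¹ * r₁) := by
      ext x
      rw [mem_ofPred_eq, psi_lt_iff hr hβ ht0 ht1, mem_ball]
    have hρ : 0 < (t⁻¹) ^ β⁻¹ * r₁ := mul_pos (Real.rpow_pos_of_pos (inv_pos.2 ht0) _) hr
    rw [hset, withDensity_apply _ measurableSet_ball, Measure.restrict_restrict measurableSet_ball,
      Measure.restrict_apply measurableSet_ball]
    have hint : ball x₀ ((t⁻¹) ^ β⁻¹ * r₁) ∩ ball x₀ R = ball x₀ (min ((t⁻¹) ^ β⁻¹ * r₁) R) := by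
      ext x
      simp [mem_ball]
    rw [hint]
    exact hball _ (lt_min hρ hR) (min_le_right _ _)
  · have hset : {x : E n | t < psi r₁ β (dist x x₀)} = ∅ := by
      ext x
      rw [mem_ofPred_eq]
      have := psi_le_one hβ.le r₁ (dist x x₀)
      constructor
      · intro h
        exact absurd (lt_of_lt_of_le h this) ht1
      · intro h
        exact h.elim
    rw [hset, measure_empty, measure_empty, mul_zero]

/-- polar coordinates in a ball -/
lemma polar_ball (n : ℕ) (hn : 1 ≤ n) (x₀ : E n) (g : ℝ → ℝ≥0∞) (hg : Measurable g) (R : ℝ) :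
    ∫⁻ x in ball x₀ R, g (dist x x₀) =
      ENNReal.ofReal (om n) * ∫⁻ s in Ioo 0 R, g s * ENNReal.ofReal (s ^ (n - 1)) := by
  have : Nonempty (Fin n) := ⟨⟨0, hn⟩⟩
  have : Nontrivial (E n) := inferInstance
  rw [← polar n hn g hg (Ioo 0 R) measurableSet_Ioo (fun s hs => hs.1)]
  have h1 : ∫⁻ x in ball x₀ R, g (dist x x₀) = ∫⁻ x in ball (0 : E n) R, g ‖x‖ := by
    rw [← lintegral_indicator measurableSet_ball, ← lintegral_indicator measurableSet_ball,
      ← lintegral_sub_right_eq_self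
        (fun x => (ball (0 : E n) R).indicator (fun x => g ‖x‖) x) x₀]
    congr 1
    funext x
    by_cases hx : x ∈ ball x₀ R
    · have hx' : x - x₀ ∈ ball (0 : E n) R := by
        rw [mem_ball, dist_eq_norm] at *
        simpa using hx
      rw [indicator_of_mem hx, indicator_of_mem hx', dist_eq_norm]
    · have hx' : x - x₀ ∉ ball (0 : E n) R := by
        rw [mem_ball, dist_eq_norm] at *
        simpa using hx
      rw [indicator_of_notMem hx, indicator_of_notMem hx']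
  rw [h1]
  refine setLIntegral_congr ?_
  have h2 : ({(0 : E n)}ᶜ : Set (E n)) =ᵐ[volume] univ := by
    rw [ae_eq_univ, compl_compl]
    exact measure_singleton _
  have h3 : (ball (0 : E n) R ∩ {(0 : E n)}ᶜ : Set (E n)) =ᵐ[volume]
      (ball (0 : E n) R ∩ univ : Set (E n)) :=
    (ae_eq_refl _).inter h2
  rw [inter_univ] at h3
  have h4 : (ball (0 : E n) R ∩ {(0 : E n)}ᶜ : Set (E n)) = {x | ‖x‖ ∈ Ioo 0 R} := by
    ext x
    simp only [mem_inter_iff, mem_ball, dist_zero_right, mem_compl_iff, mem_singleton_iff,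
      mem_ofPred_eq, mem_Ioo, norm_pos_iff]
    tauto
  rw [h4] at h3
  exact h3.symm

/-- lower Lebesgue integrals of continuous functions on intervals -/
lemma lint_eq (a b : ℝ) (hab : a ≤ b) (f : ℝ → ℝ) (hf : ContinuousOn f (Icc a b))
    (h0 : ∀ s ∈ Icc a b, 0 ≤ f s) :
    ∫⁻ s in Ioo a b, ENNReal.ofReal (f s) = ENNReal.ofReal (∫ s in a..b, f s) := by
  rw [intervalIntegral.integral_of_le hab, setLIntegral_congr Ioo_ae_eq_Ioc,
    ofReal_integral_eq_lintegral_ofReal]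
  · exact (hf.integrableOn_Icc).mono_set Ioc_subset_Icc_self
  · exact (ae_restrict_iff' measurableSet_Ioc).2 (ae_of_all _ fun s hs =>
      h0 s (Ioc_subset_Icc_self hs))

/-- the integral of a power -/
lemma int_pow (r₁ R m : ℝ) (hr : 0 < r₁) (hR : r₁ ≤ R) (hm : 0 < m) :
    ∫ s in r₁..R, (s / r₁) ^ (-(m + 1)) = r₁ * ((1 - (r₁ / R) ^ m) / m) := by
  have hR0 : 0 < R := lt_of_lt_of_le hr hR
  have h1 : ∫ s in r₁..R, (s / r₁) ^ (-(m + 1)) =
      r₁ • ∫ s in (r₁ / r₁)..(R / r₁), s ^ (-(m + 1)) :=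
    intervalIntegral.integral_comp_div (fun s => s ^ (-(m + 1))) hr.ne'
  rw [h1, div_self hr.ne', integral_rpow, smul_eq_mul]
  · have h2 : -(m + 1) + 1 = -m := by ring
    rw [h2, Real.one_rpow, Real.rpow_neg (by positivity), ← Real.inv_rpow (by positivity), inv_div]
    field_simp
    ring
  · right
    refine ⟨by linarith, ?_⟩
    rw [uIcc_of_le ((one_le_div hr).2 hR)]
    intro h
    linarith [h.1]

lemma psi_cont (r₁ β : ℝ) : Continuous (psi r₁ β) := by
  unfold psi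
  refine Continuous.rpow_const (by fun_prop) fun x => Or.inl ?_
  exact (lt_of_lt_of_le one_pos (le_max_left _ _)).ne'

lemma psi_small {r₁ β s : ℝ} (hr : 0 < r₁) (hs : s ≤ r₁) : psi r₁ β s = 1 := by
  unfold psi
  rw [max_eq_left ((div_le_one hr).2 hs), Real.one_rpow]

lemma psi_large {r₁ β s : ℝ} (hr : 0 < r₁) (hs : r₁ ≤ s) : psi r₁ β s = (s / r₁) ^ (-β) := by
  unfold psi
  rw [max_eq_right ((one_le_div hr).2 hs)]

lemma psi_pow {r₁ γ p s : ℝ} : psi r₁ γ s ^ p = psi r₁ (p * γ) s := by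
  unfold psi
  rw [← Real.rpow_mul (lt_of_lt_of_le one_pos (le_max_left _ _)).le]
  congr 1
  ring

/-- the normalising integral -/
lemma int_psi (r r₁ R m : ℝ) (hr : 0 < r₁) (hrr : r ≤ r₁) (hR : r₁ ≤ R) (hm : 0 < m) :
    ∫ s in r..R, psi r₁ (m + 1) s = (r₁ - r) + r₁ * ((1 - (r₁ / R) ^ m) / m) := by
  rw [← intervalIntegral.integral_add_adjacent_intervals
    ((psi_cont r₁ (m + 1)).intervalIntegrable r r₁) ((psi_cont r₁ (m + 1)).intervalIntegrable r₁ R)]
  congr 1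
  · rw [intervalIntegral.integral_congr (g := fun _ => (1 : ℝ))]
    · simp
    · intro s hs
      rw [uIcc_of_le hrr] at hs
      exact psi_small hr hs.2
  · rw [← int_pow r₁ R m hr hR hm]
    refine intervalIntegral.integral_congr ?_
    intro s hs
    rw [uIcc_of_le hR] at hs
    exact psi_large hr hs.1

/-- the volume integral -/
lemma int_psi_pow (n : ℕ) (hn : 1 ≤ n) (r₁ R m p : ℝ) (hr : 0 < r₁) (hR : r₁ ≤ R) (hm : 0 < m)
    (hmp : (n : ℝ) - 1 = (p - 1) * (m + 1)) :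
    ∫ s in (0 : ℝ)..R, psi r₁ (p * (m + 1)) s * s ^ (n - 1) =
      r₁ ^ (n - 1) * (r₁ * (1 / n + (1 - (r₁ / R) ^ m) / m)) := by
  have hn0 : (0 : ℝ) < n := by exact_mod_cast hn
  have hc : Continuous fun s => psi r₁ (p * (m + 1)) s * s ^ (n - 1) :=
    (psi_cont _ _).mul (continuous_pow _)
  rw [← intervalIntegral.integral_add_adjacent_intervals
    (hc.intervalIntegrable 0 r₁) (hc.intervalIntegrable r₁ R)]
  have h1 : ∫ s in (0 : ℝ)..r₁, psi r₁ (p * (m + 1)) s * s ^ (n - 1) = r₁ ^ (n - 1) * r₁ / n := by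
    rw [intervalIntegral.integral_congr (g := fun s => s ^ (n - 1))]
    · rw [integral_pow, ← pow_succ]
      have h2 : n - 1 + 1 = n := Nat.sub_add_cancel hn
      have h3 : ((n - 1 : ℕ) : ℝ) + 1 = n := by
        rw [Nat.cast_sub hn]; simp
      rw [h2, h3, zero_pow (by omega), sub_zero]
    · intro s hs
      rw [uIcc_of_le hr.le] at hs
      change psi r₁ (p * (m + 1)) s * s ^ (n - 1) = s ^ (n - 1)
      rw [psi_small hr hs.2, one_mul]
  have h2 : ∫ s in r₁..R, psi r₁ (p * (m + 1)) s * s ^ (n - 1) =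
      r₁ ^ (n - 1) * (r₁ * ((1 - (r₁ / R) ^ m) / m)) := by
    rw [← int_pow r₁ R m hr hR hm, ← intervalIntegral.integral_const_mul]
    refine intervalIntegral.integral_congr ?_
    intro s hs
    rw [uIcc_of_le hR] at hs
    have hs0 : 0 < s := lt_of_lt_of_le hr hs.1
    change psi r₁ (p * (m + 1)) s * s ^ (n - 1) = r₁ ^ (n - 1) * (s / r₁) ^ (-(m + 1))
    rw [psi_large hr hs.1]
    have h3 : s ^ (n - 1) = r₁ ^ (n - 1) * (s / r₁) ^ ((n : ℝ) - 1) := by
      have h4 : ((n : ℝ) - 1) = ((n - 1 : ℕ) : ℝ) := by rw [Nat.cast_sub hn]; simp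
      rw [h4, Real.rpow_natCast, ← mul_pow]
      congr 1
      field_simp
    rw [h3]
    have h5 : (s / r₁) ^ (-(m + 1)) = (s / r₁) ^ (-(p * (m + 1))) * (s / r₁) ^ ((n : ℝ) - 1) := by
      rw [← Real.rpow_add (by positivity), hmp]
      congr 1
      ring
    rw [h5]
    ring
  rw [h1, h2]
  ring

/-- the basic estimate -/
lemma basic (h1 : StmtKEY) (n : ℕ) (p : ℝ) (hn : 2 ≤ n) (hp1 : (n : ℝ) - 1 < p) (hp2 : p < n)
    (G : Set (E n)) (x₀ : E n) (Q : E n → ℝ≥0∞) (f : E n → E n) (hD : Data p G x₀ Q f)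
    (q R : ℝ) (hq : 0 < q) (hR : 0 < R) (hRG : closedBall x₀ R ⊆ G)
    (hball : ∀ s, 0 < s → s ≤ R → ∫⁻ x in ball x₀ s, Q x ≤
      ENNReal.ofReal q * volume (ball x₀ s))
    (m : ℝ) (hm : m = (n - p) / (p - 1)) (r r₁ : ℝ) (hr : 0 < r) (hr₁ : r₁ = n * r / (n - 1))
    (hrR : r₁ < R) (x : E n) (hx : ‖x - x₀‖ ≤ r) :
    segCap n p * ENNReal.ofReal (‖f x - f x₀‖ ^ (n - p)) ≤
      ENNReal.ofReal (q * om n * r₁ ^ ((n : ℝ) - p) *
        (1 / n + (1 - (r₁ / R) ^ m) / m) ^ (1 - p)) := by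
  have hn2 : (2 : ℝ) ≤ n := by exact_mod_cast hn
  have hn1 : 1 ≤ n := by omega
  have hp0 : 1 < p := by linarith
  have hm0 : 0 < m := by rw [hm]; exact div_pos (by linarith) (by linarith)
  have hmp : (n : ℝ) - 1 = (p - 1) * (m + 1) := by
    rw [hm]
    have : p - 1 ≠ 0 := by linarith
    field_simp
    ring
  have hr₁0 : 0 < r₁ := by rw [hr₁]; exact div_pos (by nlinarith) (by linarith)
  have hn1' : (n : ℝ) - 1 ≠ 0 := by linarith
  have hrr : r₁ - r = r₁ / n := by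
    rw [hr₁]
    field_simp
    ring
  have hrlt : r < r₁ := by
    have : 0 < r₁ / n := by positivity
    linarith
  have hom : 0 < om n := om_pos n hn1
  obtain ⟨Z, hZ⟩ : ∃ Z, Z = 1 / (n : ℝ) + (1 - (r₁ / R) ^ m) / m := ⟨_, rfl⟩
  have hZ0 : 0 < Z := by
    have h2 : (r₁ / R) ^ m ≤ 1 :=
      Real.rpow_le_one (by positivity) ((div_le_one hR).2 hrR.le) hm0.le
    have h3 : 0 ≤ (1 - (r₁ / R) ^ m) / m := div_nonneg (by linarith) hm0.le
    have h4 : 0 < 1 / (n : ℝ) := by positivity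
    rw [hZ]; linarith
  rw [← hZ]
  have hN0 : 0 < r₁ * Z := mul_pos hr₁0 hZ0
  have hη : Measurable fun s => ENNReal.ofReal (psi r₁ (m + 1) s / (r₁ * Z)) := by
    have := psi_meas r₁ (m + 1)
    fun_prop
  have hη1 : 1 ≤ ∫⁻ s in Ioo r R, ENNReal.ofReal (psi r₁ (m + 1) s / (r₁ * Z)) := by
    rw [lint_eq r R (by linarith) (fun s => psi r₁ (m + 1) s / (r₁ * Z))
      (((psi_cont _ _).div_const _).continuousOn)
      (fun s _ => div_nonneg (psi_pos _ _ _).le hN0.le), intervalIntegral.integral_div,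
      int_psi r r₁ R m hr₁0 hrlt.le hrR.le hm0, hrr]
    have : r₁ / n + r₁ * ((1 - (r₁ / R) ^ m) / m) = r₁ * Z := by rw [hZ]; ring
    rw [this, div_self hN0.ne', ENNReal.ofReal_one]
  have hring := hD.homeo.ring r R hr (by linarith) hRG _ hη hη1
  have hkey := h1 n p hn hp1 hp2 G f hD.isOpen hD.homeo.embed x₀ x r R hr (by linarith) hRG hx
  refine hkey.trans (hring.trans ?_)
  have hsub : {x | r < dist x x₀ ∧ dist x x₀ < R} ⊆ ball x₀ R := fun y hy => hy.2
  refine (lintegral_mono_set hsub).trans ?_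
  have hint : ∀ y : E n, Q y * ENNReal.ofReal (psi r₁ (m + 1) (dist y x₀) / (r₁ * Z)) ^ p =
      ENNReal.ofReal ((r₁ * Z) ^ (-p)) *
        (Q y * ENNReal.ofReal (psi r₁ (p * (m + 1)) (dist y x₀))) := by
    intro y
    rw [ENNReal.ofReal_rpow_of_nonneg (div_nonneg (psi_pos _ _ _).le hN0.le) (by linarith),
      Real.div_rpow (psi_pos _ _ _).le hN0.le, psi_pow, div_eq_mul_inv, ← Real.rpow_neg hN0.le,
      ENNReal.ofReal_mul (psi_pos _ _ _).le]
    ring
  simp only [hint]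
  rw [lintegral_const_mul' _ _ ENNReal.ofReal_ne_top]
  refine (mul_le_mul_right (cmp n x₀ Q hD.meas _ ENNReal.ofReal_ne_top R hR hball r₁
    (p * (m + 1)) hr₁0 (by positivity)) _).trans ?_
  rw [polar_ball n hn1 x₀ (fun s => ENNReal.ofReal (psi r₁ (p * (m + 1)) s))
    (by have := psi_meas r₁ (p * (m + 1)); fun_prop) R]
  have h5 : ∫⁻ s in Ioo 0 R, ENNReal.ofReal (psi r₁ (p * (m + 1)) s) *
      ENNReal.ofReal (s ^ (n - 1)) = ENNReal.ofReal (r₁ ^ (n - 1) * (r₁ * Z)) := by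
    rw [hZ, ← int_psi_pow n hn1 r₁ R m p hr₁0 hrR.le hm0 hmp, ← lint_eq 0 R hR.le]
    · refine lintegral_congr fun s => ?_
      rw [ENNReal.ofReal_mul (psi_pos _ _ _).le]
    · exact ((psi_cont _ _).mul (continuous_pow _)).continuousOn
    · intro s hs
      exact mul_nonneg (psi_pos _ _ _).le (pow_nonneg hs.1 _)
  rw [h5, ← ENNReal.ofReal_mul hom.le, ← ENNReal.ofReal_mul hq.le,
    ← ENNReal.ofReal_mul (Real.rpow_nonneg hN0.le _)]
  refine ENNReal.ofReal_le_ofReal (le_of_eq ?_)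
  have h6 : r₁ ^ (n - 1) = r₁ ^ ((n : ℝ) - 1) := by
    rw [← Real.rpow_natCast, Nat.cast_sub hn1]
    simp
  rw [h6, Real.mul_rpow hr₁0.le hZ0.le]
  have h7 : r₁ ^ ((n : ℝ) - p) = r₁ ^ (-p) * (r₁ ^ ((n : ℝ) - 1) * r₁) := by
    rw [← Real.rpow_add_one hr₁0.ne', ← Real.rpow_add hr₁0]
    congr 1
    ring
  have h8 : Z ^ (1 - p) = Z ^ (-p) * Z := by
    rw [← Real.rpow_add_one hZ0.ne']
    congr 1
    ring
  rw [h7, h8]
  ring

/-- the bound for the quotient -/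
noncomputable def Phi (n : ℕ) (p q R m s : ℝ) : ℝ :=
  (q * (om n / kap n p) * (1 / n + (1 - (n * s / (n - 1) / R) ^ m) / m) ^ (1 - p)) ^
    (1 / ((n : ℝ) - p)) * (n / (n - 1))

lemma Phi_zero (n : ℕ) (p q R m : ℝ) (hn : 2 ≤ n) (hp1 : (n : ℝ) - 1 < p) (hp2 : p < n)
    (hq : 0 < q) (hk : 0 < kap n p) (hm : m = (n - p) / (p - 1)) :
    Phi n p q R m 0 = C3 n p * q ^ (1 / ((n : ℝ) - p)) := by
  have hn2 : (2 : ℝ) ≤ n := by exact_mod_cast hn
  have hn1 : 1 ≤ n := by omega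
  have hp0 : 1 < p := by linarith
  have hm0 : 0 < m := by rw [hm]; exact div_pos (by linarith) (by linarith)
  have hom : 0 < om n := om_pos n hn1
  have hnp : 0 < (n : ℝ) - p := by linarith
  have hn1' : 0 < (n : ℝ) - 1 := by linarith
  unfold Phi C3
  have hZ : (1 / (n : ℝ) + (1 - (n * 0 / (n - 1) / R) ^ m) / m) ^ (1 - p) =
      (n * (n - p) / (p * (n - 1))) ^ (p - 1) := by
    have h1 : (n * 0 / ((n : ℝ) - 1) / R) ^ m = 0 := by
      rw [mul_zero, zero_div, zero_div, Real.zero_rpow hm0.ne']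
    have h2 : 1 / (n : ℝ) + (1 - (0 : ℝ)) / m = (n * (n - p) / (p * (n - 1)))⁻¹ := by
      rw [hm]
      have h3 : p - 1 ≠ 0 := by linarith
      field_simp
      ring
    have h4 : (0 : ℝ) ≤ n * (n - p) / (p * (n - 1)) := by positivity
    rw [h1, h2, Real.inv_rpow h4, ← Real.rpow_neg h4]
    congr 1
    ring
  rw [hZ]
  have hW : (0 : ℝ) ≤ (n * (n - p) / (p * (n - 1))) ^ (p - 1) := by positivity
  rw [mul_assoc q, Real.mul_rpow hq.le (by positivity)]
  ring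

lemma Phi_cont (n : ℕ) (p q R m : ℝ) (hn : 2 ≤ n) (hp1 : (n : ℝ) - 1 < p) (hp2 : p < n)
    (hm : m = (n - p) / (p - 1)) :
    ContinuousAt (Phi n p q R m) 0 := by
  have hn2 : (2 : ℝ) ≤ n := by exact_mod_cast hn
  have hp0 : 1 < p := by linarith
  have hm0 : 0 < m := by rw [hm]; exact div_pos (by linarith) (by linarith)
  have hnp : 0 < (n : ℝ) - p := by linarith
  unfold Phi
  refine ContinuousAt.mul_const (ContinuousAt.rpow_const (ContinuousAt.mul continuousAt_const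
    (ContinuousAt.rpow_const ?_ (Or.inl ?_))) (Or.inr (by positivity))) _
  · refine continuousAt_const.add ((continuousAt_const.sub ?_).div_const _)
    exact ContinuousAt.rpow_const (by fun_prop) (Or.inr hm0.le)
  · rw [mul_zero, zero_div, zero_div, Real.zero_rpow hm0.ne']
    positivity

theorem e3u (h1 : StmtKEY) (h2 : StmtPOS) : StmtE3U := by
  intro n p hn hp1 hp2 G x₀ Q f hD hQb
  obtain ⟨hk0, hkt⟩ := h2 n p hn hp1 hp2
  have hkap : segCap n p = ENNReal.ofReal (kap n p) := (ENNReal.ofReal_toReal hkt.ne).symm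
  have hkap0 : 0 < kap n p := ENNReal.toReal_pos hk0.ne' hkt.ne
  have hn2 : (2 : ℝ) ≤ n := by exact_mod_cast hn
  have hn1 : 1 ≤ n := by omega
  have : Nonempty (Fin n) := ⟨⟨0, hn1⟩⟩
  have : Nontrivial (E n) := inferInstance
  have hp0 : 1 < p := by linarith
  have hom : 0 < om n := om_pos n hn1
  have hnp : 0 < (n : ℝ) - p := by linarith
  have hn1' : 0 < (n : ℝ) - 1 := by linarith
  obtain ⟨m, hm⟩ : ∃ m, m = ((n : ℝ) - p) / (p - 1) := ⟨_, rfl⟩
  have hm0 : 0 < m := by rw [hm]; exact div_pos (by linarith) (by linarith)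
  have hA : ∀ q : ℝ, 0 < q → Qbar Q x₀ < ENNReal.ofReal q →
      Lbar f x₀ ≤ ENNReal.ofReal (C3 n p) * ENNReal.ofReal q ^ (1 / ((n : ℝ) - p)) := by
    intro q hq hqQ
    have hev := eventually_lt_of_limsup_lt hqQ
    obtain ⟨u, hu, huQ⟩ := (mem_nhdsGT_iff_exists_Ioo_subset).1 hev
    obtain ⟨ε, hε, hεG⟩ := Metric.nhds_basis_closedBall.mem_iff.1 (hD.isOpen.mem_nhds hD.mem)
    have hu0 : (0 : ℝ) < u := hu
    obtain ⟨R, hRdef⟩ : ∃ R, R = min (u / 2) ε := ⟨_, rfl⟩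
    have hR : 0 < R := by rw [hRdef]; exact lt_min (by linarith) hε
    have hRu : R < u := by
      have : R ≤ u / 2 := by rw [hRdef]; exact min_le_left _ _
      linarith
    have hRG : closedBall x₀ R ⊆ G :=
      (closedBall_subset_closedBall (by rw [hRdef]; exact min_le_right _ _)).trans hεG
    have hball : ∀ s, 0 < s → s ≤ R → ∫⁻ x in ball x₀ s, Q x ≤
        ENNReal.ofReal q * volume (ball x₀ s) := by
      intro s hs hsR
      have h3 : (∫⁻ x in ball x₀ s, Q x) / volume (ball x₀ s) < ENNReal.ofReal q :=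
        huQ ⟨hs, lt_of_le_of_lt hsR hRu⟩
      exact (ENNReal.div_le_iff (measure_ball_pos _ _ hs).ne' measure_ball_lt_top.ne).1 h3.le
    have hcomp : ∀ᶠ x in 𝓝[≠] x₀, ENNReal.ofReal (‖f x - f x₀‖ / ‖x - x₀‖) ≤
        ENNReal.ofReal (Phi n p q R m ‖x - x₀‖) := by
      have hsmall : ∀ᶠ x in 𝓝 x₀, ‖x - x₀‖ < R * (n - 1) / n := by
        have : Tendsto (fun x : E n => ‖x - x₀‖) (𝓝 x₀) (𝓝 0) := by
          have h4 : Continuous fun x : E n => ‖x - x₀‖ := by fun_prop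
          have h5 := h4.tendsto x₀
          simpa using h5
        exact this.eventually_lt_const (by positivity)
      filter_upwards [hsmall.filter_mono nhdsWithin_le_nhds, self_mem_nhdsWithin] with x hx hxne
      have hr : 0 < ‖x - x₀‖ := by
        rw [norm_pos_iff, sub_ne_zero]
        exact hxne
      obtain ⟨r, hrdef⟩ : ∃ r, r = ‖x - x₀‖ := ⟨_, rfl⟩
      rw [← hrdef] at hr hx ⊢
      have hrR : n * r / ((n : ℝ) - 1) < R := by
        rw [div_lt_iff₀ hn1']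
        rw [lt_div_iff₀ (by linarith)] at hx
        linarith
      have hb := basic h1 n p hn hp1 hp2 G x₀ Q f hD q R hq hR hRG hball m hm r
        (n * r / (n - 1)) hr rfl hrR x hrdef.ge
      refine ENNReal.ofReal_le_ofReal ?_
      obtain ⟨r₁, hr₁⟩ : ∃ r₁, r₁ = n * r / ((n : ℝ) - 1) := ⟨_, rfl⟩
      unfold Phi
      rw [← hr₁] at hb hrR ⊢
      have hr₁0 : 0 < r₁ := by rw [hr₁]; positivity
      obtain ⟨Z, hZ⟩ : ∃ Z, Z = 1 / (n : ℝ) + (1 - (r₁ / R) ^ m) / m := ⟨_, rfl⟩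
      have hZ0 : 0 < Z := by
        have h2 : (r₁ / R) ^ m ≤ 1 :=
          Real.rpow_le_one (by positivity) ((div_le_one hR).2 hrR.le) hm0.le
        have h3 : 0 ≤ (1 - (r₁ / R) ^ m) / m := div_nonneg (by linarith) hm0.le
        have h4 : 0 < 1 / (n : ℝ) := by positivity
        rw [hZ]; linarith
      rw [← hZ] at hb ⊢
      have hL : 0 ≤ ‖f x - f x₀‖ := norm_nonneg _
      rw [hkap, ← ENNReal.ofReal_mul hkap0.le,
        ENNReal.ofReal_le_ofReal_iff (by positivity)] at hb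
      have hb' : ‖f x - f x₀‖ ^ ((n : ℝ) - p) ≤
          (q * (om n / kap n p) * Z ^ (1 - p)) * r₁ ^ ((n : ℝ) - p) := by
        rw [← mul_le_mul_iff_right₀ hkap0]
        refine hb.trans (le_of_eq ?_)
        field_simp
      have hB0 : 0 ≤ q * (om n / kap n p) * Z ^ (1 - p) := by positivity
      have hb2 := Real.rpow_le_rpow (by positivity) hb' (z := 1 / ((n : ℝ) - p)) (by positivity)
      rw [Real.mul_rpow hB0 (by positivity), ← Real.rpow_mul hL, ← Real.rpow_mul hr₁0.le,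
        mul_one_div_cancel hnp.ne', Real.rpow_one, Real.rpow_one] at hb2
      rw [div_le_iff₀ hr]
      refine hb2.trans (le_of_eq ?_)
      rw [hr₁]
      field_simp
    have hlim : Tendsto (fun x => ENNReal.ofReal (Phi n p q R m ‖x - x₀‖)) (𝓝[≠] x₀)
        (𝓝 (ENNReal.ofReal (Phi n p q R m 0))) := by
      refine (ENNReal.continuous_ofReal.tendsto _).comp ?_
      refine (Phi_cont n p q R m hn hp1 hp2 hm).tendsto.comp ?_
      have h4 : Continuous fun x : E n => ‖x - x₀‖ := by fun_prop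
      have h5 := h4.tendsto x₀
      rw [sub_self, norm_zero] at h5
      exact h5.mono_left nhdsWithin_le_nhds
    have hle : Lbar f x₀ ≤ ENNReal.ofReal (Phi n p q R m 0) := by
      unfold Lbar
      refine (limsup_le_limsup hcomp).trans (le_of_eq hlim.limsup_eq)
    refine hle.trans (le_of_eq ?_)
    rw [Phi_zero n p q R m hn hp1 hp2 hq hkap0 hm, ENNReal.ofReal_rpow_of_pos hq,
      ENNReal.ofReal_mul]
    unfold C3
    positivity
  obtain ⟨q₀, hq₀⟩ : ∃ q₀, q₀ = (Qbar Q x₀).toReal := ⟨_, rfl⟩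
  have hq₀0 : 0 ≤ q₀ := by rw [hq₀]; exact ENNReal.toReal_nonneg
  have hQe : Qbar Q x₀ = ENNReal.ofReal q₀ := by rw [hq₀, ENNReal.ofReal_toReal hQb.ne]
  have hlim : Tendsto (fun q : ℝ => ENNReal.ofReal (C3 n p) *
      ENNReal.ofReal q ^ (1 / ((n : ℝ) - p))) (𝓝[>] q₀)
      (𝓝 (ENNReal.ofReal (C3 n p) * ENNReal.ofReal q₀ ^ (1 / ((n : ℝ) - p)))) := by
    refine ENNReal.Tendsto.const_mul ?_ (Or.inr ENNReal.ofReal_ne_top)
    have h3 : Continuous fun q : ℝ => ENNReal.ofReal q ^ (1 / ((n : ℝ) - p)) :=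
      ENNReal.continuous_rpow_const.comp ENNReal.continuous_ofReal
    exact (h3.tendsto q₀).mono_left nhdsWithin_le_nhds
  rw [hQe]
  refine ge_of_tendsto hlim ?_
  filter_upwards [self_mem_nhdsWithin] with q hq
  have hq' : q₀ < q := hq
  refine hA q (lt_of_le_of_lt hq₀0 hq') ?_
  rw [hQe]
  exact (ENNReal.ofReal_lt_ofReal_iff (lt_of_le_of_lt hq₀0 hq')).2 hq'

end Pool.Agent.Helper62.RQ

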